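import Mathlib
import Pool.Agent.H39R3.PB.Final
import Pool.Agent.H944R3.PB_T1
import Pool.Agent.H830R3.PB.T2
import Pool.Agent.H124R3.PB_T4
import Pool.Agent.H581R3.PBTaskPB
import Pool.Agent.H512R3.PB_T6
import Pool.Agent.H885R3.PB_T7
import Pool.Agent.H623R3.PBT8
import Pool.Agent.H39R3.PS.Final
import Pool.Agent.H245R3.PS_SA
import Pool.Agent.H142R3.PS.SB
import Pool.Agent.H944R3.PS_SC
import Pool.Agent.Helper961.Gab.PSSD
import Pool.Agent.H39R3.PS.Tr
import Pool.Agent.H671V.Fiv
import Pool.Agent.H32R3.PS.Sv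
import Pool.Agent.Helper961.Gab.PSGo
import Pool.Agent.H39R3.PS.Fi

/-!
In every even base `b ≥ 4` there are infinitely many palindromes with at most five prime factors: at least
`c b^L / L` of the palindromes with exactly `2L+1` digits have at most five prime factors, counted with
multiplicity, all of them larger than `b^(L/17)`.
-/

set_option autoImplicit false

namespace Pool.Agent.Results.MP_e8d2ce_nt.FivePrimeFactors

open Finset Filter

/-- There is `c > 0` such that, for all large `L`, at least `c * b^L / L` of the `n` with `b^(2L) ≤ n < b^(2L+1)`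
whose base-`b` digit sequence equals its own reverse have at most five prime factors counted with multiplicity,
and each of these prime factors exceeds `b^(L/17)`. -/
theorem result (b : ℕ) (hb : 4 ≤ b) (h2 : Even b) : ∃ c : ℝ, 0 < c ∧ ∀ᶠ L : ℕ in atTop,
    c * (b : ℝ) ^ L / L ≤ (((range (b ^ (2 * L + 1))).filter (fun n => b ^ (2 * L) ≤ n ∧
      (Nat.digits b n).reverse = Nat.digits b n ∧ n.primeFactorsList.length ≤ 5 ∧
      ∀ p ∈ n.primeFactorsList, (b : ℝ) ^ ((L : ℝ) / 17) < p)).card : ℝ) := by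
  have h3 : 3 ≤ b := by omega
  have hBV : Pool.Agent.H39R3.PB.BVB b :=
    Pool.Agent.H39R3.PB.bvB Pool.Agent.H944R3.PB.taskT1 Pool.Agent.H830R3.PB.T2.taskT2
      Pool.Agent.H124R3.PBT4.taskT4 Pool.Agent.H581R3.PB.taskPB Pool.Agent.H512R3.PBT6.taskT6
      Pool.Agent.H885R3.PBT7.taskT7 Pool.Agent.H623R3.PBT8.taskT8 h3
  have h := Pool.Agent.H39R3.PS.almostB Pool.Agent.H245R3.PSSA.taskSA Pool.Agent.H142R3.PS.taskSB
    Pool.Agent.H944R3.PSSC.taskSC Pool.Agent.H39R3.PS.SD961.taskSD961 Pool.Agent.H39R3.PSTr.taskTr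
    Pool.Agent.H671V.Fiv.taskFiv Pool.Agent.H32R3.PS.taskSv Pool.Agent.H39R3.PS.Go961.taskGo961
    Pool.Agent.H39R3.PSFi.taskFi hb h2.two_dvd hBV
  exact h

end Pool.Agent.Results.MP_e8d2ce_nt.FivePrimeFactors
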