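import Mathlib
import Pool.Agent.H39R3.PB.Final
import Pool.Agent.H944R3.PB_T1
import Pool.Agent.H830R3.PB.T2
import Pool.Agent.H124R3.PB_T4
import Pool.Agent.H581R3.PBTaskPB
import Pool.Agent.H512R3.PB_T6
import Pool.Agent.H885R3.PB_T7
import Pool.Agent.H623R3.PBT8
import Pool.Agent.H181R5.PB_T9

/-!
In every base `b ≥ 3` the palindromes with `2L+1` digits (there are `X = (b-1) b^L` of them, and they are of
size about `x = X^2`) have level of distribution `X^(1/2-ε)`, that is `x^(1/4-ε)`, for moduli coprime to `2b`.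
-/

set_option autoImplicit false

namespace Pool.Agent.Results.MP_e8d2ce_nt.LevelOneHalf

open Finset Filter

/-- Level of distribution `X^(1/2-ε)` for the `(2L+1)`-digit palindromes in every base `b ≥ 3`. -/
theorem result (b : ℕ) (hb : 3 ≤ b) (ε : ℝ) (hε : 0 < ε) (A : ℕ) : ∀ᶠ L : ℕ in atTop, ∀ h : ℕ → ℕ,
    ∑ q ∈ (Icc 1 ⌊(b : ℝ) ^ ((1 / 2 - ε) * L)⌋₊).filter (fun q => q.Coprime (2 * b)),
      |(((range (b ^ (2 * L + 1))).filter (fun n => b ^ (2 * L) ≤ n ∧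
          (Nat.digits b n).reverse = Nat.digits b n ∧ n ≡ h q [MOD q])).card : ℝ)
          - ((b : ℝ) - 1) * (b : ℝ) ^ L / q| ≤ (b : ℝ) ^ L / (L : ℝ) ^ A :=
  Pool.Agent.H39R3.PB.allB Pool.Agent.H944R3.PB.taskT1 Pool.Agent.H830R3.PB.T2.taskT2
    Pool.Agent.H124R3.PBT4.taskT4 Pool.Agent.H581R3.PB.taskPB Pool.Agent.H512R3.PBT6.taskT6
    Pool.Agent.H885R3.PBT7.taskT7 Pool.Agent.H623R3.PBT8.taskT8 Pool.Agent.H181R5.PBT9.taskT9 hb ε hε A

end Pool.Agent.Results.MP_e8d2ce_nt.LevelOneHalf
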